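import Pool.Agent.Q161.ESJ.Stm1
import Pool.Agent.Y723.HJ.Kum

/-!
# Project ESJ, job GRPJ: the Selmer group of the Jacobian, `J(F)/2` and the Tate-Shafarevich group (helper121;
adapted from `Pool/Agent/Q129/ESG/GRPJ.lean`)
-/

set_option autoImplicit false

namespace Pool.Agent.Q121.ESJ

open Polynomial Ideal NumberField IsDedekindDomain

open Pool.Agent.Y723.HJ (CR OddM HF nm cl mi clmap clmap_mi exists_cl_mi halve_cl locConst_apply)
open Pool.Agent.Q161.ESJ

variable {F : Type} [Field F]

lemma hfpol [CharZero F] {H : HP F} (hs : H.pol.Separable) (L : Type) [Field L] [Algebra F L] :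
    HF (pol H L) :=
  { instOddM H L with
    sep := by
      unfold pol
      exact hs.map
    two := by
      have : CharZero L := charZero_of_injective_algebraMap (algebraMap F L).injective
      exact two_ne_zero }

section basic

variable {H : HP F}

lemma exists_mi' {L : Type} [Field L] [Algebra F L] [HF (pol H L)] (P : Jac H L) :
    ∃ u v : L[X], u.Monic ∧ P = (cl (mi (pol H L) u v) : ClassGroup (CR (pol H L))) := by
  obtain ⟨u, v, hu, _, h⟩ := exists_cl_mi (f := pol H L) P
  exact ⟨u, v, hu, h.symm⟩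

lemma pointMap_mi {K L : Type} [Field K] [Algebra F K] [Field L] [Algebra F L] [HF (pol H K)]
    [HF (pol H L)] (φ : K →ₐ[F] L) {u v : K[X]} (hu : u ≠ 0) :
    pointMap H φ (cl (mi (pol H K) u v) : ClassGroup (CR (pol H K))) =
      (cl (mi (pol H L) (u.map (φ : K →+* L)) (v.map (φ : K →+* L))) : ClassGroup (CR (pol H L))) :=
  clmap_mi (φ : K →+* L) (pol_map H φ) hu

lemma pointMap_comp {K L E : Type} [Field K] [Algebra F K] [Field L] [Algebra F L] [Field E]
    [Algebra F E] [HF (pol H K)] [HF (pol H L)] [HF (pol H E)] (φ : K →ₐ[F] L) (ψ : L →ₐ[F] E)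
    (P : Jac H K) : pointMap H ψ (pointMap H φ P) = pointMap H (ψ.comp φ) P := by
  obtain ⟨u, v, hu, rfl⟩ := exists_mi' P
  rw [pointMap_mi _ hu.ne_zero, pointMap_mi _ (hu.map (φ : K →+* L)).ne_zero, pointMap_mi _ hu.ne_zero,
    Polynomial.map_map, Polynomial.map_map]
  rfl

lemma pointMap_sub {K L : Type} [Field K] [Algebra F K] [Field L] [Algebra F L] (φ : K →ₐ[F] L)
    (P Q : Jac H K) : pointMap H φ (P - Q) = pointMap H φ P - pointMap H φ Q :=
  map_sub (pointHom H φ) P Q

variable {K : Type} [Field K] [Algebra F K]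

/-- an automorphism as a homomorphism over `F` -/
noncomputable abbrev rs (F : Type) [Field F] {K : Type} [Field K] [Algebra F K] (σ : GF K) :
    AlgebraicClosure K →ₐ[F] AlgebraicClosure K :=
  (σ : AlgebraicClosure K →ₐ[K] AlgebraicClosure K).restrictScalars F

lemma act_sub (σ : GF K) (P Q : Jac H (AlgebraicClosure K)) :
    act H σ (P - Q) = act H σ P - act H σ Q :=
  pointMap_sub _ P Q

lemma act_mul [HF (pol H (AlgebraicClosure K))] (σ τ : GF K) (R : Jac H (AlgebraicClosure K)) :
    act H (σ * τ) R = act H σ (act H τ R) :=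
  (pointMap_comp (rs F τ) (rs F σ) R).symm

lemma lc_map [CharZero K] (p : (AlgebraicClosure K)[X]) :
    IsLocallyConstant (fun σ : GF K => p.map (rs F σ : AlgebraicClosure K →+* AlgebraicClosure K)) := by
  have : IsGalois K (AlgebraicClosure K) := inferInstance
  induction p using Polynomial.induction_on' with
  | add p q hp hq =>
    have h : (fun σ : GF K => (p + q).map (rs F σ : AlgebraicClosure K →+* AlgebraicClosure K)) =
        (fun σ : GF K => p.map (rs F σ : AlgebraicClosure K →+* AlgebraicClosure K)) +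
          (fun σ : GF K => q.map (rs F σ : AlgebraicClosure K →+* AlgebraicClosure K)) := by
      funext σ
      rw [Pi.add_apply, Polynomial.map_add]
    rw [h]
    exact hp.add hq
  | monomial n c =>
    have h : (fun σ : GF K => (monomial n c).map (rs F σ : AlgebraicClosure K →+* AlgebraicClosure K)) =
        (fun x : AlgebraicClosure K => monomial n x) ∘ (fun σ : GF K => σ c) := by
      funext σ
      rw [Polynomial.map_monomial]
      rfl
    rw [h]
    exact (locConst_apply c).comp _

lemma lc_act [CharZero K] [HF (pol H (AlgebraicClosure K))] (P : Jac H (AlgebraicClosure K)) :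
    IsLocallyConstant (fun σ : GF K => act H σ P) := by
  obtain ⟨u, v, hu, rfl⟩ := exists_mi' P
  have h2 : (fun σ : GF K => act H σ (cl (mi (pol H (AlgebraicClosure K)) u v) :
      ClassGroup (CR (pol H (AlgebraicClosure K))))) =
      (fun w : (AlgebraicClosure K)[X] × (AlgebraicClosure K)[X] =>
        ((cl (mi (pol H (AlgebraicClosure K)) w.1 w.2) :
        ClassGroup (CR (pol H (AlgebraicClosure K)))) : Jac H (AlgebraicClosure K))) ∘
        (fun σ : GF K => (u.map (rs F σ : AlgebraicClosure K →+* AlgebraicClosure K),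
          v.map (rs F σ : AlgebraicClosure K →+* AlgebraicClosure K))) := by
    funext σ
    exact pointMap_mi _ hu.ne_zero
  rw [h2]
  exact ((lc_map u).prodMk (lc_map v)).comp _

/-- coboundaries are trivial at all places -/
lemma cob_loc [CharZero F] (hs : H.pol.Separable) [HF (pol H (AlgebraicClosure F))]
    (R : Jac H (AlgebraicClosure F)) (K : Type) [Field K] [Algebra F K] :
    LocallyTrivial H K (fun σ => act H σ R - R) := by
  intro ι
  have : HF (pol H (AlgebraicClosure K)) := hfpol hs _
  refine ⟨pointMap H ι R, fun τ σ hc => ?_⟩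
  have h : pointMap H ι (act H σ R) = act H τ (pointMap H ι R) := by
    have h1 : ι.comp (rs F σ) = (rs F τ).comp ι := AlgHom.ext fun x => (hc x).symm
    exact (pointMap_comp _ _ R).trans ((congrArg (fun φ => pointMap H φ R) h1).trans
      (pointMap_comp _ _ R).symm)
  exact (pointMap_sub _ (act H σ R) R).trans
    (congrArg (fun z => z - pointMap H ι R) h)

variable [NumberField F]

/-- coboundaries are locally trivial cocycles -/
lemma cob_sha (hs : H.pol.Separable) [HF (pol H (AlgebraicClosure F))] (R : Jac H (AlgebraicClosure F)) :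
    IsShaCocycle H (fun σ => act H σ R - R) := by
  refine ⟨⟨(lc_act R).sub (IsLocallyConstant.const R), ?_⟩, fun p => cob_loc hs R _,
    fun v => cob_loc hs R _⟩
  intro σ τ
  show act H (σ * τ) R - R = (act H σ R - R) + act H σ (act H τ R - R)
  rw [act_mul, act_sub]
  abel

omit [NumberField F] in
/-- halving -/
lemma halve {L : Type} [Field L] [Algebra F L] [IsAlgClosed L] [HF (pol H L)] (Q : Jac H L) :
    ∃ P : Jac H L, P + P = Q := by
  obtain ⟨c, hc⟩ := halve_cl (f := pol H L) Q
  refine ⟨c, ?_⟩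
  rw [pow_two] at hc
  exact hc

/-- every class killed by two has a representative with values in the points of order two -/
lemma exists_good (hs : H.pol.Separable) [HF (pol H (AlgebraicClosure F))]
    (c : ShaTorsion H 2) : ∃ f : selJ H, (QuotientAddGroup.mk ⟨f.1, f.2.1⟩ :
      shaCocycles H ⧸ (coboundaries H).addSubgroupOf (shaCocycles H)) = c.1 := by
  obtain ⟨c, hc⟩ := c
  obtain ⟨f0, rfl⟩ := QuotientAddGroup.mk_surjective c
  have h1 : 2 • f0 ∈ (coboundaries H).addSubgroupOf (shaCocycles H) := by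
    rw [← QuotientAddGroup.eq_zero_iff]
    exact hc
  rw [AddSubgroup.mem_addSubgroupOf] at h1
  obtain ⟨Q, hQ⟩ := h1
  obtain ⟨R, hR⟩ := halve Q
  have hcob := cob_sha hs R
  have hcob' : (fun σ : GF F => act H σ R - R) ∈ shaCocycles H := hcob
  refine ⟨⟨f0.1 - (fun σ : GF F => act H σ R - R), (shaCocycles H).sub_mem f0.2 hcob', fun σ => ?_⟩,
    ?_⟩
  · have h2 := hQ σ
    show (f0.1 σ - (act H σ R - R)) + (f0.1 σ - (act H σ R - R)) = 0
    have h3 : f0.1 σ + f0.1 σ = act H σ Q - Q := by
      rw [← h2, two_nsmul]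
      rfl
    have h4 : (f0.1 σ - (act H σ R - R)) + (f0.1 σ - (act H σ R - R)) =
        (f0.1 σ + f0.1 σ) - (act H σ (R + R) - (R + R)) := by
      rw [act_add]
      abel
    rw [h4, hR, h3, sub_self]
  · show (QuotientAddGroup.mk _ : shaCocycles H ⧸ (coboundaries H).addSubgroupOf (shaCocycles H)) =
      QuotientAddGroup.mk _
    rw [QuotientAddGroup.eq, AddSubgroup.mem_addSubgroupOf]
    refine ⟨R, fun σ => ?_⟩
    show -(f0.1 σ - (act H σ R - R)) + f0.1 σ = act H σ R - R
    abel

/-- the Kummer cocycle of a rational point -/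
lemma exists_kum (hs : H.pol.Separable) [HF (pol H (AlgebraicClosure F))] (P : JacK H F) :
    ∃ R : Jac H (AlgebraicClosure F), R + R = P.1 ∧ (fun σ => act H σ R - R) ∈ selJ H := by
  obtain ⟨R, hR⟩ := halve P.1
  refine ⟨R, hR, cob_sha hs R, fun σ => ?_⟩
  show (act H σ R - R) + (act H σ R - R) = 0
  rw [sub_add_sub_comm, ← act_add, hR, P.2 σ, sub_self]

/-- the injection -/
lemma exists_inj (hs : H.pol.Separable) [HF (pol H (AlgebraicClosure F))] :
    ∃ Ψ : ShaTorsion H 2 × (JacK H F ⧸ (nsmulAddMonoidHom 2 : JacK H F →+ JacK H F).range) → Sel2J H,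
      Function.Injective Ψ := by
  choose f hfc using fun c : ShaTorsion H 2 => exists_good hs c
  choose R hR hRs using fun P : JacK H F => exists_kum hs P
  refine ⟨fun x => QuotientAddGroup.mk (f x.1 + ⟨_, hRs x.2.out⟩), ?_⟩
  rintro ⟨c, x⟩ ⟨c', x'⟩ hxx
  have h1 : (QuotientAddGroup.mk (f c + ⟨_, hRs x.out⟩) : Sel2J H) =
    QuotientAddGroup.mk (f c' + ⟨_, hRs x'.out⟩) := hxx
  rw [QuotientAddGroup.eq, AddSubgroup.mem_addSubgroupOf] at h1
  obtain ⟨T, hT, h2⟩ := h1
  have h2' : ∀ σ : GF F, -((f c).1 σ + (act H σ (R x.out) - R x.out)) +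
      ((f c').1 σ + (act H σ (R x'.out) - R x'.out)) = act H σ T - T := h2
  have h3 : c = c' := by
    apply Subtype.ext
    rw [← hfc c, ← hfc c']
    show (QuotientAddGroup.mk _ : shaCocycles H ⧸ (coboundaries H).addSubgroupOf (shaCocycles H)) =
      QuotientAddGroup.mk _
    rw [QuotientAddGroup.eq, AddSubgroup.mem_addSubgroupOf]
    refine ⟨T + R x.out - R x'.out, fun σ => ?_⟩
    show -(f c).1 σ + (f c').1 σ = _
    rw [act_sub, act_add]
    have h4 := h2' σ
    have h5 : act H σ T = -((f c).1 σ + (act H σ (R x.out) - R x.out)) +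
      ((f c').1 σ + (act H σ (R x'.out) - R x'.out)) + T := by
      rw [h4]
      abel
    rw [h5]
    abel
  subst h3
  have h4 : ∀ σ : GF F, act H σ (R x'.out - R x.out - T) = R x'.out - R x.out - T := by
    intro σ
    have h5 := h2' σ
    rw [act_sub, act_sub]
    have h6 : act H σ (R x'.out) = act H σ T - T + (act H σ (R x.out) - R x.out) + R x'.out := by
      rw [← h5]
      abel
    rw [h6]
    abel
  have h5 : x = x' := by
    have h6 : (⟨R x'.out - R x.out - T, h4⟩ : JacK H F) + ⟨R x'.out - R x.out - T, h4⟩ =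
        x'.out - x.out := by
      apply Subtype.ext
      show (R x'.out - R x.out - T) + (R x'.out - R x.out - T) = (x'.out).1 - (x.out).1
      rw [← hR, ← hR]
      have e7 : R x'.out - R x.out - T + (R x'.out - R x.out - T) =
        (R x'.out + R x'.out) - (R x.out + R x.out) - (T + T) := by abel
      rw [e7, hT, sub_zero]
    have h7 : (QuotientAddGroup.mk x.out :
        JacK H F ⧸ (nsmulAddMonoidHom 2 : JacK H F →+ JacK H F).range) = QuotientAddGroup.mk x'.out := by
      rw [QuotientAddGroup.eq, AddMonoidHom.mem_range]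
      refine ⟨⟨R x'.out - R x.out - T, h4⟩, ?_⟩
      rw [nsmulAddMonoidHom_apply, two_nsmul, h6]
      abel
    rw [QuotientAddGroup.out_eq', QuotientAddGroup.out_eq'] at h7
    exact h7
  rw [h5]

end basic

/-- JOB GRPJ -/
theorem grpj : S_GRPJ := by
  intro F _ _ H hs hfin
  have : HF (pol H (AlgebraicClosure F)) := hfpol hs _
  obtain ⟨Ψ, hΨ⟩ := exists_inj hs
  have hf := Finite.of_injective Ψ hΨ
  have h1 : Finite (ShaTorsion H 2) :=
    Finite.of_injective (fun c => ((c, 0) : ShaTorsion H 2 ×
      (JacK H F ⧸ (nsmulAddMonoidHom 2 : JacK H F →+ JacK H F).range)))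
      (fun c c' h => (Prod.ext_iff.1 h).1)
  have h2 : Finite (JacK H F ⧸ (nsmulAddMonoidHom 2 : JacK H F →+ JacK H F).range) :=
    Finite.of_injective (fun c => ((⟨0, smul_zero 2⟩, c) : ShaTorsion H 2 ×
      (JacK H F ⧸ (nsmulAddMonoidHom 2 : JacK H F →+ JacK H F).range)))
      (fun c c' h => (Prod.ext_iff.1 h).2)
  refine ⟨h2, h1, ?_⟩
  calc Nat.card (QuotK H F 2) * Nat.card (ShaTorsion H 2)
      = Nat.card (ShaTorsion H 2 × (JacK H F ⧸ (nsmulAddMonoidHom 2 : JacK H F →+ JacK H F).range)) := by
        rw [Nat.card_prod, mul_comm]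
        rfl
    _ ≤ Nat.card (Sel2J H) := Nat.card_le_card_of_injective Ψ hΨ

end Pool.Agent.Q121.ESJ
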